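import Pool.Agent.V5helper50.SP.Stm
import Pool.Agent.V5helper50.RS.Stm2

/-!
# Project SP: assembly with the jobs as hypotheses
-/

set_option autoImplicit false

open Finset MeasureTheory

namespace Pool.Agent.V5helper50.SP

open Pool.Agent.V5helper51.MT (S_SUP)
open Pool.Agent.V5helper50.RS (CongruenceOrder)

theorem base_of (hUPB : S_UPB) (hLOB : S_LOB) (k : ℕ) (hk : 2 ≤ k) : ∃ c C : ℝ, 0 < c ∧ 0 < C ∧
    ∀ (q : ℕ) (α : Fin (k - 1) → ℝ) (σ : ℝ), 1 ≤ q → 0 < σ → σ < 1 → Pair k q α σ → Sup k q α σ →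
      Two k (2 * k + 1) q α c C := by
  obtain ⟨C, hC, hU⟩ := hUPB k hk
  obtain ⟨c, hc, hL⟩ := hLOB k hk
  refine ⟨c, C, hc, hC, fun q α σ hq h0 h1 hP hS ρ => ?_⟩
  obtain ⟨n₁, hn₁⟩ := hU q hq α σ h0 h1 hP hS ρ
  obtain ⟨n₂, hn₂⟩ := hL q hq α σ h0 h1 hP hS ρ
  refine ⟨max n₁ n₂, fun n hn => ?_⟩
  have hk0 : (k : ℝ) ≠ 0 := by
    have : (0 : ℝ) < k := by exact_mod_cast (by omega : 0 < k)
    exact this.ne'
  have e1 : ((2 * k + 1 : ℕ) : ℝ) / k - 1 = 1 + 1 / (k : ℝ) := by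
    push_cast
    field_simp
    ring
  have e2 : 2 * k + 1 - 1 = 2 * k := by omega
  rw [e1, e2]
  exact ⟨hn₁ n (le_trans (le_max_left _ _) hn), hn₂ n (le_trans (le_max_right _ _) hn)⟩

theorem all_of (hUPB : S_UPB) (hLOB : S_LOB) (hEXT : S_EXT) (k : ℕ) (hk : 2 ≤ k) (i : ℕ) :
    ∃ c C : ℝ, 0 < c ∧ 0 < C ∧
    ∀ (q : ℕ) (α : Fin (k - 1) → ℝ) (σ : ℝ), 1 ≤ q → 0 < σ → σ < 1 → Pair k q α σ → Sup k q α σ →
      Two k (2 * k + 1 + i) q α c C := by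
  induction i with
  | zero => exact base_of hUPB hLOB k hk
  | succ i ih =>
    obtain ⟨c, C, hc, hC, h⟩ := ih
    obtain ⟨c', C', hc', hC', h'⟩ := hEXT k (2 * k + 1 + i) hk (by omega) c C hc hC
    exact ⟨c', C', hc', hC', fun q α σ hq h0 h1 hP hS => h' q α hq (h q α σ hq h0 h1 hP hS)⟩

theorem main_of (hUPB : S_UPB) (hLOB : S_LOB) (hEXT : S_EXT) (hAE : S_AE) (hSUP : S_SUP)
    (k : ℕ) (hk : 2 ≤ k) (d : ℕ) (hd : 2 * k + 1 ≤ d) : ∃ c C : ℝ, 0 < c ∧ 0 < C ∧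
    ∀ᵐ α : Fin (k - 1) → ℝ, ∀ q : ℕ, 1 ≤ q → Two k d q α c C := by
  obtain ⟨i, rfl⟩ := Nat.exists_eq_add_of_le hd
  obtain ⟨c, C, hc, hC, h⟩ := all_of hUPB hLOB hEXT k hk i
  refine ⟨c, C, hc, hC, ?_⟩
  obtain ⟨σ, h0, h1, hS⟩ := hSUP k hk
  have hA := hAE k hk (σ / 2) (by linarith)
  have hS' : ∀ᵐ α : Fin (k - 1) → ℝ, ∀ q : ℕ, 1 ≤ q → Sup k q α σ := by
    rw [ae_all_iff]
    intro q
    by_cases hq : 1 ≤ q
    swap
    · exact Filter.Eventually.of_forall fun α h => absurd h hq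
    have h2 : ∀ᵐ α : Fin (k - 1) → ℝ, Sup k q α σ := by
      unfold Sup
      rw [ae_all_iff]
      intro ρ
      rw [ae_all_iff]
      intro M
      by_cases hM : 1 ≤ M
      · filter_upwards [hS q ρ M hq hM] with α hα _
        exact hα
      · exact Filter.Eventually.of_forall fun α h => absurd h hM
    filter_upwards [h2] with α hα _
    exact hα
  filter_upwards [hA, hS'] with α hA hS q hq
  exact h q α σ hq h0 h1 (hA q hq) (hS q hq)

/-- the density -/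
noncomputable def dens (k Q d u : ℕ) : ℝ :=
  (Nat.card {x : Fin d → ZMod Q // ∑ i, x i ^ k = (u : ZMod Q)} : ℝ) / (Q : ℝ) ^ (d - 1)

theorem spheres_of (hUPB : S_UPB) (hLOB : S_LOB) (hEXT : S_EXT) (hAE : S_AE) (hSUP : S_SUP)
    (hSPH : S_SPH) (k : ℕ) (hk : 2 ≤ k) (d : ℕ) (hd : 2 * k + 1 ≤ d) :
    ∃ c C : ℝ, 0 < c ∧ c ≤ C ∧ ∀ᵐ α : Fin (k - 1) → ℝ, ∀ Q : ℕ, 1 ≤ Q → ∃ u₀ : ℕ, ∀ u : ℕ, u₀ ≤ u →
      c * dens k Q d u * (u : ℝ) ^ ((d : ℝ) / k - 1) ≤ (sphere k Q d α u).ncard ∧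
      ((sphere k Q d α u).ncard : ℝ) ≤ C * dens k Q d u * (u : ℝ) ^ ((d : ℝ) / k - 1) := by
  obtain ⟨c, C, hc, hC, h⟩ := main_of hUPB hLOB hEXT hAE hSUP k hk d hd
  have hC2 : (0 : ℝ) < 2 ^ d * C := by positivity
  refine ⟨c, max c (2 ^ d * C), hc, le_max_left _ _, ?_⟩
  filter_upwards [h] with α hα Q hQ
  obtain ⟨u₀, hu⟩ := hSPH k d hk (by omega) c C hc hC Q α hQ (hα Q hQ)
  refine ⟨u₀, fun u hu' => ?_⟩
  obtain ⟨h1, h2⟩ := hu u hu'
  refine ⟨h1, h2.trans ?_⟩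
  have hd0 : 0 ≤ dens k Q d u := by unfold dens; positivity
  have hu0 : 0 ≤ (u : ℝ) ^ ((d : ℝ) / k - 1) := by positivity
  exact mul_le_mul_of_nonneg_right (mul_le_mul_of_nonneg_right (le_max_right _ _) hd0) hu0

/-- the order of magnitude uniformly in `Q` -/
def UniformOrder (k d : ℕ) : Prop :=
  ∃ c C : ℝ, 0 < c ∧ c ≤ C ∧ ∀ᵐ α : Fin (k - 1) → ℝ, ∀ Q : ℕ, 1 ≤ Q → ∃ u₀ : ℕ, ∀ u : ℕ, u₀ ≤ u →
    (sphere k Q d α u).Nonempty →
    c * (u : ℝ) ^ ((d : ℝ) / k - 1) ≤ (sphere k Q d α u).ncard ∧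
    ((sphere k Q d α u).ncard : ℝ) ≤ C * (u : ℝ) ^ ((d : ℝ) / k - 1)

lemma a_cast (k Q : ℕ) (α : Fin (k - 1) → ℝ) (x : ℕ) :
    ((Pool.Agent.V5helper51.MT.a k Q α x : ℤ) : ZMod Q) = (x : ZMod Q) ^ k := by
  unfold Pool.Agent.V5helper51.MT.a
  push_cast
  rw [ZMod.natCast_self, zero_mul, add_zero]

lemma exists_sol {k Q d u : ℕ} {α : Fin (k - 1) → ℝ} (h : (sphere k Q d α u).Nonempty) :
    ∃ x : Fin d → ZMod Q, ∑ i, x i ^ k = (u : ZMod Q) := by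
  obtain ⟨m, hm⟩ := h
  refine ⟨fun i => ((m i).natAbs : ZMod Q), ?_⟩
  have hm' : ∑ i, Pool.Agent.V5helper51.MT.a k Q α (m i).natAbs = u := hm
  have h1 := congrArg (fun z : ℤ => (z : ZMod Q)) hm'
  simp only [Int.cast_sum, Int.cast_natCast] at h1
  rw [← h1]
  exact sum_congr rfl fun i _ => (a_cast k Q α _).symm

theorem thr_of {k d : ℕ} (hmain : ∃ c C : ℝ, 0 < c ∧ c ≤ C ∧ ∀ᵐ α : Fin (k - 1) → ℝ, ∀ Q : ℕ, 1 ≤ Q →
      ∃ u₀ : ℕ, ∀ u : ℕ, u₀ ≤ u →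
      c * dens k Q d u * (u : ℝ) ^ ((d : ℝ) / k - 1) ≤ (sphere k Q d α u).ncard ∧
      ((sphere k Q d α u).ncard : ℝ) ≤ C * dens k Q d u * (u : ℝ) ^ ((d : ℝ) / k - 1)) :
    UniformOrder k d ↔ CongruenceOrder k d := by
  obtain ⟨c, C, hc, hcC, hM⟩ := hmain
  have hC : 0 < C := lt_of_lt_of_le hc hcC
  constructor
  · rintro ⟨c', C', hc', hcC', hU⟩
    have hC' : 0 < C' := lt_of_lt_of_le hc' hcC'
    obtain ⟨α, h1, h2⟩ := (hM.and hU).exists
    refine ⟨c' / C, C' / c, div_pos hc' hC, ?_, ?_⟩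
    · rw [div_le_div_iff₀ hC hc]
      exact mul_le_mul hcC' hcC hc.le hC'.le
    · intro q hq n hn
      have : NeZero q := ⟨by omega⟩
      obtain ⟨u₁, h1⟩ := h1 q hq
      obtain ⟨u₂, h2⟩ := h2 q hq
      set u : ℕ := n.val + q * (max u₁ u₂ + 1) with hu
      have hq' : max u₁ u₂ + 1 ≤ q * (max u₁ u₂ + 1) := Nat.le_mul_of_pos_left _ hq
      have hu1 : u₁ ≤ u := by
        have := le_max_left u₁ u₂
        omega
      have hu2 : u₂ ≤ u := by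
        have := le_max_right u₁ u₂
        omega
      have hupos : 0 < u := by omega
      have hun : (u : ZMod q) = n := by
        rw [hu]
        push_cast
        rw [ZMod.natCast_zmod_val, ZMod.natCast_self, zero_mul, add_zero]
      have hP : 0 < (u : ℝ) ^ ((d : ℝ) / k - 1) := Real.rpow_pos_of_pos (by exact_mod_cast hupos) _
      have hQ : 0 < (q : ℝ) ^ (d - 1) := pow_pos (by exact_mod_cast hq) _
      have hcard : 0 < (Nat.card {x : Fin d → ZMod q // ∑ i, x i ^ k = n} : ℝ) := by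
        obtain ⟨x, hx⟩ := hn
        have : Nonempty {x : Fin d → ZMod q // ∑ i, x i ^ k = n} := ⟨⟨x, hx⟩⟩
        exact_mod_cast Nat.card_pos
      have hrho : dens k q d u = (Nat.card {x : Fin d → ZMod q // ∑ i, x i ^ k = n} : ℝ) /
          (q : ℝ) ^ (d - 1) := by
        unfold dens
        rw [hun]
      have hrpos : 0 < dens k q d u := by
        rw [hrho]; exact div_pos hcard hQ
      obtain ⟨h3, h4⟩ := h1 u hu1
      have hpos : 0 < ((sphere k q d α u).ncard : ℝ) := by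
        have : 0 < c * dens k q d u * (u : ℝ) ^ ((d : ℝ) / k - 1) := by positivity
        linarith
      have hN : (sphere k q d α u).Nonempty := by
        by_contra h0
        rw [Set.not_nonempty_iff_eq_empty] at h0
        rw [h0] at hpos
        simp at hpos
      obtain ⟨h5, h6⟩ := h2 u hu2 hN
      have h7 : c' ≤ C * dens k q d u := by
        have : c' * (u : ℝ) ^ ((d : ℝ) / k - 1) ≤ (C * dens k q d u) * (u : ℝ) ^ ((d : ℝ) / k - 1) :=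
          h5.trans h4
        exact le_of_mul_le_mul_right this hP
      have h8 : c * dens k q d u ≤ C' := by
        have : (c * dens k q d u) * (u : ℝ) ^ ((d : ℝ) / k - 1) ≤ C' * (u : ℝ) ^ ((d : ℝ) / k - 1) :=
          h3.trans h6
        exact le_of_mul_le_mul_right this hP
      rw [hrho] at h7 h8
      constructor
      · rw [div_mul_eq_mul_div, div_le_iff₀ hC]
        rw [mul_div_assoc', le_div_iff₀ hQ] at h7
        linarith
      · rw [div_mul_eq_mul_div, le_div_iff₀ hc]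
        rw [mul_div_assoc', div_le_iff₀ hQ] at h8
        linarith
  · rintro ⟨c₁, C₁, hc₁, hcC₁, hO⟩
    have hC₁ : 0 < C₁ := lt_of_lt_of_le hc₁ hcC₁
    refine ⟨c * c₁, C * C₁, mul_pos hc hc₁, mul_le_mul hcC hcC₁ hc₁.le hC.le, ?_⟩
    filter_upwards [hM] with α hα Q hQ
    obtain ⟨u₀, hu₀⟩ := hα Q hQ
    refine ⟨u₀, fun u hu hN => ?_⟩
    obtain ⟨h1, h2⟩ := hu₀ u hu
    obtain ⟨h3, h4⟩ := hO Q hQ (u : ZMod Q) (exists_sol hN)
    have hQ' : 0 < (Q : ℝ) ^ (d - 1) := pow_pos (by exact_mod_cast hQ) _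
    have hP : 0 ≤ (u : ℝ) ^ ((d : ℝ) / k - 1) := Real.rpow_nonneg (Nat.cast_nonneg _) _
    have h5 : c₁ ≤ dens k Q d u := by
      unfold dens
      rw [le_div_iff₀ hQ']
      exact h3
    have h6 : dens k Q d u ≤ C₁ := by
      unfold dens
      rw [div_le_iff₀ hQ']
      exact h4
    constructor
    · refine le_trans ?_ h1
      have : c * c₁ ≤ c * dens k Q d u := mul_le_mul_of_nonneg_left h5 hc.le
      exact mul_le_mul_of_nonneg_right this hP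
    · refine h2.trans ?_
      have : C * dens k Q d u ≤ C * C₁ := mul_le_mul_of_nonneg_left h6 hC.le
      exact mul_le_mul_of_nonneg_right this hP

end Pool.Agent.V5helper50.SP
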