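import Pool.Agent.V5helper51.MT.Stm

/-!
# Project SP: `k`-spheres for almost all smooth perturbations of `x ^ k` (MP_927be3_nt)

THEOREM. Let `k ≥ 2`, `d ≥ 2 k + 1`. There are `0 < c ≤ C` such that for almost all `α ∈ ℝ ^ (k-1)` for all `q ≥ 1`, with
`a(x) = x ^ k + q ⌊∑ α_j x ^ j⌋`, and all large `n`: the number of the `x ∈ ℕ ^ d` in given residue classes `ρ_i` with
`∑ a(x_i) = n` is at most `C q ^ (1-d) n ^ (d/k - 1)`, and at least `c q ^ (1-d) n ^ (d/k - 1)` if `q ∣ n - ∑ ρ_i ^ k`.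

New: the mean value for full boxes (upper bound). Broad-narrow inequality (BG), induction on scales (IT).
All jobs are independent (hypotheses `S_...` where listed). Constants are free: please tell helper50 at once if a
statement is wrong or inconvenient. `e, g, a, G, cube, φ` and `S_...` of project MT are in `V5helper51.MT.Stm`.
-/

set_option autoImplicit false

open Finset MeasureTheory

namespace Pool.Agent.V5helper50.SP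

open Pool.Agent.V5helper51.MT (e g a G cube φ)

open scoped Classical in
/-- the number of the pairs `x, y` of tuples with `x_i, y_i ∈ I_i` and equal sums -/
noncomputable def cnt {k : ℕ} (a : ℕ → ℤ) (I : Fin k → Finset ℕ) : ℕ :=
  ((Fintype.piFinset I ×ˢ Fintype.piFinset I).filter fun p : (Fin k → ℕ) × (Fin k → ℕ) =>
    ∑ i, a (p.1 i) = ∑ i, a (p.2 i)).card

/-- the average number of such pairs -/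
noncomputable def W (k q A : ℕ) (I : Fin k → Finset ℕ) : ℝ :=
  ∑ x ∈ Fintype.piFinset I, ∑ y ∈ Fintype.piFinset I, volume.real {α : Fin (k - 1) → ℝ |
    α ∈ cube k A ∧ ∑ i, a k q α (x i) = ∑ i, a k q α (y i)}

/-- **BG** (200 lines). Broad-narrow inequality. Proof. `cnt a I = ∫_0^1 ∏ |S_(I_i)(γ)| ^ 2 dγ`, `S_J(γ) = ∑_{x ∈ J} e(γ a(x))`
(orthogonality). Let `S = S_[u, u + M L)`, `J_i = [u + i L, u + (i+1) L)`. Fix `γ`. Call `i` big if `|S_(J_i)| ≥ |S| / (2 M)`. If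
there are `k` big `i` at pairwise distances `≥ 2`, then `|S| ^ (2k) ≤ (2 M) ^ (2k) ∏ |S_(J_i)| ^ 2` for these. Otherwise a maximal
set of big `i` at pairwise distances `≥ 2` has at most `k - 1` elements and all big `i` are at distance `≤ 1` from it: there
are at most `3 k - 3` big `i`, so `|S| ≤ 3 k max |S_(J_i)| + |S| / 2` and `|S| ^ (2k) ≤ (6 k) ^ (2k) ∑ |S_(J_i)| ^ (2k)`. Integrate. -/
def S_BG : Prop := ∀ k M : ℕ, 1 ≤ k → 1 ≤ M → ∀ (a : ℕ → ℤ) (u L : ℕ),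
  (cnt a (fun _ : Fin k => Ico u (u + M * L)) : ℝ) ≤
    (2 * (M : ℝ)) ^ (2 * k) * ∑ i ∈ (univ : Finset (Fin k → Fin M)).filter
      (fun i => ∀ l l' : Fin k, l < l' → (i l : ℕ) + 2 ≤ i l'),
        (cnt a (fun l => Ico (u + (i l : ℕ) * L) (u + ((i l : ℕ) + 1) * L)) : ℝ) +
    (6 * (k : ℝ)) ^ (2 * k) * ∑ i ∈ range M, (cnt a (fun _ : Fin k => Ico (u + i * L) (u + (i + 1) * L)) : ℝ)

/-- **HOL** (80 lines). Proof. `S_J = ∑ S_(J_i)`, `|∑_{i<N} s_i| ^ (2k) ≤ N ^ (2k-1) ∑ |s_i| ^ (2k)`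
(`inner_le_nnorm_mul_nnorm`/`inv_card_weight..`, `Finset.sum_pow_le_pow_mul..`: `inner`, or `pow_arith_mean_le_arith_mean_pow`),
orthogonality. -/
def S_HOL : Prop := ∀ k N : ℕ, 1 ≤ k → ∀ (a : ℕ → ℤ) (J : Fin N → Finset ℕ),
  (∀ i j, i ≠ j → Disjoint (J i) (J j)) →
  (cnt a (fun _ : Fin k => univ.biUnion J) : ℝ) ≤
    (N : ℝ) ^ (2 * k - 1) * ∑ i, (cnt a (fun _ : Fin k => J i) : ℝ)

/-- **WC** (120 lines; adapt `V5helper1.MT.WC`). Power sums in separated intervals of length `ℓ` in `[X, K X]`.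
Proof. Signs `s_i` with `s_i (x i - y i) = |x i - y i|`; `q(t) = s_0 ℓ ^ (m-1-n) ∏ (g_l - t)` over the `n` indices `l` with
`s_l ≠ s_(l+1)`, `g_l` = the middle of the gap between the intervals `l` and `l+1`: `|q| ≥ ℓ ^ (m-1) / 2 ^ m` on the intervals with sign
`s_i`, and `|q_i| ≤ C X ^ (m-1-i)` for the coefficients. Then `∑_i ∫_{y i}^{x i} t ^ r q(t) dt ≥ X ^ r ℓ ^ (m-1) 2 ^ (-m) ∑ |x i - y i|`, and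
the left side is `∑_{j = r+1}^{r+m} (q_(j-1-r) / j) ∑_i (x i ^ j - y i ^ j)`. -/
def S_WC : Prop := ∀ r m K : ℕ, 1 ≤ m → ∃ C : ℝ, 0 < C ∧ ∀ X ℓ : ℝ, 0 < ℓ → ℓ ≤ X → ∀ b x y : Fin m → ℝ,
  (∀ i j : Fin m, i < j → b i + 2 * ℓ ≤ b j) → (∀ i, X ≤ b i ∧ b i + ℓ ≤ K * X) →
  (∀ i, b i ≤ x i ∧ x i ≤ b i + ℓ) → (∀ i, b i ≤ y i ∧ y i ≤ b i + ℓ) →
  ∀ i, |x i - y i| * ℓ ^ (m - 1) * X ^ r ≤
    C * ∑ j ∈ Icc (r + 1) (r + m), |∑ l, (x l ^ j - y l ^ j)| * X ^ (r + m - j)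

open scoped Classical in
/-- **CNT** (150 lines, uses S_WC; adapt `V5helper6.MT.CNT`). Proof. Let `R = X / ℓ ≥ 1`, `τ_r = X ^ r / R ^ (k-1-r)`, so `τ_0 ≤ 1`,
`τ_(r+1) = X R τ_r`. Let `τ_r ≤ D < τ_(r+1)`, `r ≤ k - 1` (no upper condition if `r = k - 1`). Fix the first `r` coordinates
(at most `(2 ℓ) ^ r` ways). WC with `(r, k - r)`: two solutions with the same first `r` coordinates have
`|x_i - x'_i| ≤ C' D R ^ (k-1-r) / X ^ r = C' D / τ_r`, so the coordinate `x_r` takes at most `C'' D / τ_r` values; fix it too, WC with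
`(r + 1, k - r - 1)` gives `|x_i - x'_i| ≤ C' D / τ_(r+1) ≤ C'` for the others. Total `≤ C ℓ ^ r D R ^ (k-1-r) / X ^ r ≤ C D R ^ (k-1)`. -/
def S_CNT : Prop := ∀ k K : ℕ, 1 ≤ k → ∃ C : ℝ, 0 < C ∧ ∀ X ℓ : ℕ, 1 ≤ ℓ → ℓ ≤ X → ∀ b : Fin k → ℕ,
  (∀ i j : Fin k, i < j → b i + 2 * ℓ ≤ b j) → (∀ i, X ≤ b i ∧ b i + ℓ ≤ K * X) →
  ∀ D : ℝ, 1 ≤ D → ∀ c : ℕ → ℝ,
  (((Fintype.piFinset fun i : Fin k => Icc (b i) (b i + ℓ)).filter fun x : Fin k → ℕ =>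
    ∀ j ∈ Icc 1 k, |∑ i, (x i : ℝ) ^ j - c j| ≤ D).card : ℝ) ≤ C * D * ((X : ℝ) / ℓ) ^ (k - 1)

/-- **MV** (180 lines, uses S_CNT and `MT.S_PR`; adapt `V5helper62.MT.MV`, `V5helper72.MT.PR` has `t_PR`). Proof. As there:
if the sums are equal then `|h_k / q + ∑ α_j h_j| ≤ k`, measure `≤ C / D`, `D = max 1 max_{j<k} |h_j|`, dyadic `D ≤ k (K X) ^ (k-1)`,
for each of the `ℓ ^ k` tuples `y` at most `C D R ^ (k-1)` tuples `x`: total `C ℓ ^ k R ^ (k-1) log X = C ℓ X ^ (k-1) log X`. -/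
def S_MV : Prop := ∀ k q A K : ℕ, 2 ≤ k → 1 ≤ q → 1 ≤ A → ∃ C : ℝ, 0 < C ∧ ∀ X ℓ : ℕ, 1 ≤ ℓ → ℓ ≤ X →
  ∀ b : Fin k → ℕ, (∀ i j : Fin k, i < j → b i + 2 * ℓ ≤ b j) → (∀ i, X ≤ b i ∧ b i + ℓ ≤ K * X) →
  W k q A (fun i => Ico (b i) (b i + ℓ)) ≤ C * ℓ * (X : ℝ) ^ (k - 1) * (1 + Real.log X)

/-- **IT** (180 lines, uses S_BG, S_MV). Induction on scales. Proof. Choose `M` with `(6 k) ^ (2k) ≤ M ^ (ε/2)` and `K = M + 2`. Integrating BG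
over the cube (`W = ∫_cube cnt`; or sum the measures) gives for `B_t = sup W([u, u + M^t))`, `X ≤ u`, `u + M^t ≤ K X`, `M ^ t ≤ M X`:
`B_0 ≤ (2A)^(k-1)`, `B_(t+1) ≤ C M^t X^(k-1) (1 + log X) + (6 k)^(2k) M B_t` (`M^t ≤ X`), so
`B_t ≤ C' X^(k-1) (1 + log X) (t + 1) ((6 k)^(2k) M)^t`. Take `M^t ≤ X < M^(t+1)`: `[X, 2X) ⊆ [X, X + M^(t+1))`, and
`(6 k)^(2k(t+1)) ≤ M^(ε(t+1)/2) ≤ C X^(ε/2)`. -/
def S_IT : Prop := ∀ k q A : ℕ, 2 ≤ k → 1 ≤ q → 1 ≤ A → ∀ ε : ℝ, 0 < ε → ∃ C : ℝ, 0 < C ∧ ∀ X : ℕ, 1 ≤ X →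
  W k q A (fun _ => Ico X (2 * X)) ≤ C * (X : ℝ) ^ ((k : ℝ) + ε)

/-- **AE** (150 lines, uses S_IT, S_HOL; adapt `V5helper70.MT.AE`). Proof. Markov and Borel-Cantelli over `m`: for almost all
`α ∈ cube k A` `cnt (a k q α) [2^m, 2^(m+1)) ≤ 2 ^ (m (k + ε/2))` for all large `m` (S_IT with `ε/4`), countable union over `A`, `q`;
then HOL for `[0, X) ⊆ {0} ∪ ⋃_{m < N} [2^m, 2^(m+1))`, `2^(N-1) ≤ X` (`cnt` is monotone). -/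
def S_AE : Prop := ∀ k : ℕ, 2 ≤ k → ∀ ε : ℝ, 0 < ε → ∀ᵐ α : Fin (k - 1) → ℝ, ∀ q : ℕ, 1 ≤ q →
  ∃ C : ℝ, 0 < C ∧ ∀ X : ℕ, 1 ≤ X → (cnt (a k q α) (fun _ : Fin k => range X) : ℝ) ≤ C * (X : ℝ) ^ ((k : ℝ) + ε)

/-- the majorant: `φ2 ≥ 1` on `[0, 1]` -/
noncomputable def φ2 (t : ℝ) : ℝ := 2 * φ ((t + 1 / 2) / 2)

/-- **CMU** (150 lines, uses `MT.S_KER`; adapt `V5helper59.MT.CM`). Proof. `φ2 ≥ 0`, `φ2 ≥ 1` on `[0, 1]`, so the number of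
solutions is at most `∑_{v,w,z} φ2(H z + s v + t w - n)`; `φ2(t) = ∫ ψ2(γ) e(γ t) dγ`, `ψ2(γ) = 4 ψ(2 γ) e(γ/2)`, `|ψ2| ≤ 4 / (1 + γ^2)`;
then as there. -/
def S_CMU : Prop := ∀ (ι : Type) (S T : Finset ι) (s t : ι → ℤ) (X₀ X : ℕ) (H : ℝ → ℝ) (n : ℤ)
  (Γ δ E : ℝ), X₀ ≤ X → Continuous H → 1 ≤ Γ → 0 ≤ δ →
  (∀ γ : ℝ, |γ| ≤ Γ → ‖∑ z ∈ Ico X₀ X, e (γ * H z) - ∫ u in (X₀ : ℝ)..X, e (γ * H u)‖ ≤ δ) →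
  (((S ×ˢ S).filter fun p => s p.1 = s p.2).card : ℝ) ≤ E →
  (((T ×ˢ T).filter fun p => t p.1 = t p.2).card : ℝ) ≤ E →
  (((S ×ˢ (T ×ˢ Ico X₀ X)).filter fun p => s p.1 + t p.2.1 + ⌊H p.2.2⌋ = n).card : ℝ) ≤
    (∑ v ∈ S, ∑ w ∈ T, ∫ u in (X₀ : ℝ)..X, φ2 (H u + s v + t w - n)) + 100 * (δ + X / Γ) * E

/-- **MTU** (100 lines; cf. `V5helper16.MT.MTM`). Proof. For `t ≥ X₁`: `G'(t) ≥ (q t)^(k-1) ≥ (q X₀)^(k-1)`, and `∫ φ2 = 2`. -/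
def S_MTU : Prop := ∀ k q ρ : ℕ, 2 ≤ k → 1 ≤ q → ∀ α : Fin (k - 1) → ℝ, ∃ X₁ : ℕ, 1 ≤ X₁ ∧
  ∀ X₀ X : ℕ, X₁ ≤ X₀ → X₀ ≤ X → ∀ w : ℝ,
    ∫ u in (X₀ : ℝ)..X, φ2 (G k q ρ α u - w) ≤ 2 / ((q : ℝ) * X₀) ^ (k - 1)

/-- **MTL** (120 lines; cf. `V5helper16.MT.MTM`). Proof. Let `w ≥ X₁` be large and `t₁` with `(q t₁)^k = 2 q w`, so `t₁ ≤ X`,
`0 < G'(t) ≤ 3 k (q t₁)^(k-1)` for `T₀ ≤ t ≤ t₁` and `G(T₀) ≤ w`, `G(t₁) ≥ w + 1`; substitute `y = G(u)` on `[T₀, t₁]`: the integral is at least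
`(1 / (3 k (q t₁)^(k-1))) (1/2)`, and `(q t₁)^(k-1) = (2 q w)^((k-1)/k) ≤ 2 (q w)^((k-1)/k)`. -/
def S_MTL : Prop := ∀ k q ρ : ℕ, 2 ≤ k → 1 ≤ q → ∀ α : Fin (k - 1) → ℝ, ∃ X₁ : ℕ, 1 ≤ X₁ ∧
  ∀ X : ℕ, X₁ ≤ X → ∀ w : ℝ, X₁ ≤ w → w ≤ ((q : ℝ) * X) ^ k / (2 * q) →
    1 / (12 * (k : ℝ) * ((q : ℝ) * w) ^ (((k : ℝ) - 1) / k)) ≤ ∫ u in (0 : ℝ)..X, φ (G k q ρ α u - w)

/-- the number of the solutions in given residue classes -/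
noncomputable def R (k q d : ℕ) (α : Fin (k - 1) → ℝ) (ρ : Fin d → ℕ) (n : ℤ) : ℕ :=
  {x : Fin d → ℕ | (∀ i, x i % q = ρ i % q) ∧ ∑ i, a k q α (x i) = n}.ncard

/-- **GRW** (120 lines). Elementary facts on `a`: growth, finiteness. -/
def S_GRW : Prop := ∀ k q : ℕ, 2 ≤ k → 1 ≤ q → ∀ α : Fin (k - 1) → ℝ,
  (∃ x₀ : ℕ, 1 ≤ x₀ ∧ (∀ x : ℕ, x₀ ≤ x → (x : ℝ) ^ k / 2 ≤ a k q α x ∧ (a k q α x : ℝ) ≤ 2 * (x : ℝ) ^ k) ∧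
    ∀ x y : ℕ, x₀ ≤ x → x < y → a k q α x < a k q α y) ∧
  (∃ B : ℕ, ∀ x : ℕ, -(B : ℤ) ≤ a k q α x) ∧
  (∀ (d : ℕ) (ρ : Fin d → ℕ) (n : ℤ),
    {x : Fin d → ℕ | (∀ i, x i % q = ρ i % q) ∧ ∑ i, a k q α (x i) = n}.Finite) ∧
  ∀ (d : ℕ) (ρ : Fin d → ℕ), ∃ m₀ : ℤ, ∀ n : ℤ, n < m₀ → R k q d α ρ n = 0

/-- the two properties of `α` that are used -/
def Pair (k q : ℕ) (α : Fin (k - 1) → ℝ) (σ : ℝ) : Prop :=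
  ∃ C : ℝ, 0 < C ∧ ∀ X : ℕ, 1 ≤ X → (cnt (a k q α) (fun _ : Fin k => range X) : ℝ) ≤ C * (X : ℝ) ^ ((k : ℝ) + σ / 2)

/-- the conclusion of `MT.S_SUP` for `α` -/
def Sup (k q : ℕ) (α : Fin (k - 1) → ℝ) (σ : ℝ) : Prop :=
  ∀ ρ M : ℕ, 1 ≤ M → ∃ m₀ : ℕ, ∀ m ≥ m₀, ∀ X : ℕ, X = M * 2 ^ m → ∀ γ : ℝ, |γ| ≤ (X : ℝ) ^ σ →
    ‖∑ z ∈ range X, e (γ * G k q ρ α z) - ∫ u in (0 : ℝ)..X, e (γ * G k q ρ α u)‖ ≤ (X : ℝ) ^ (1 - σ)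

/-- **UPC** (200 lines, uses S_CMU, S_MTU). The last variable is large. Proof. `P = 2^m`, `ρ' = ρ_last % q`, `x_last = q z + ρ'`. With
`2^j ≥ q (4 k + 3) > 2^(j-1)`: `z ≥ X₀ = 2^(m-j)` (`m` large) and `z < X = 5 · 2^m`. `S` = the `k`-tuples in `[0, 4P]^k` in the classes of the
first `k` coordinates, `T` those for the next `k`, at most `(8 P / q)^k` each; `s(x) = (∑ (a(x_i) - ρ'_i^k)) / q` (exact, as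
`a(x) ≡ x^k`), CMU with `H = G k q ρ' α` (`a(q z + ρ') = ρ'^k + q ⌊G z⌋`), `n' = (n - ∑ ρ'_i^k) / q` (no solutions if `q` does not
divide), `Γ = X₀^σ`, `δ = 2 (5 P)^(1-σ)` (Sup with `M = 1` and `M = 5`, `m` replaced by `m - j` and `m`), `E = C (4P+1)^(k + σ/2)`
(`S ⊆ piFinset (range (4P+1))`). Main term `≤ (8P/q)^(2k) · 2 / (q X₀)^(k-1)`, `q X₀ ≥ P / (8 k + 6)`; the error is
`≤ C P^(k + 1 - σ/2)`, smaller than `q^(-2k) P^(k+1)` for large `m`. -/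
def S_UPC : Prop := ∀ k : ℕ, 2 ≤ k → ∃ C : ℝ, 0 < C ∧ ∀ q : ℕ, 1 ≤ q → ∀ (α : Fin (k - 1) → ℝ) (σ : ℝ),
  0 < σ → σ < 1 → Pair k q α σ → Sup k q α σ → ∀ ρ : Fin (2 * k + 1) → ℕ, ∃ m₀ : ℕ, ∀ m : ℕ, m₀ ≤ m → ∀ n : ℤ,
    ({x : Fin (2 * k + 1) → ℕ | (∀ i, x i % q = ρ i % q) ∧ (∀ i, x i ≤ 4 * 2 ^ m) ∧
      2 ^ m ≤ (4 * k + 2) * x (Fin.last (2 * k)) ∧ ∑ i, a k q α (x i) = n}.ncard : ℝ) ≤
      C / (q : ℝ) ^ (2 * k) * ((2 : ℝ) ^ m) ^ (k + 1)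

/-- **UPB** (150 lines, uses S_UPC, S_GRW). Proof. Let `P = 2^m ≤ n^(1/k) < 2 P` (`P^k ≤ n < (2P)^k`), `n` large. All `x_i ≤ 4 P`
(`x_i^k / 2 ≤ a(x_i) ≤ n + 2 k B ≤ (2 P)^k (1 + small)`). Some `x_i` has `a(x_i) ≥ n / (2k+1)`, so `2 x_i^k ≥ P^k / (2k+1)` and
`(4 k + 2) x_i ≥ P`; by symmetry (`2 k + 1` choices of `i`; permute `x` and `ρ` by `Equiv.swap i (Fin.last _)`) apply UPC. -/
def S_UPB : Prop := ∀ k : ℕ, 2 ≤ k → ∃ C : ℝ, 0 < C ∧ ∀ q : ℕ, 1 ≤ q → ∀ (α : Fin (k - 1) → ℝ) (σ : ℝ),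
  0 < σ → σ < 1 → Pair k q α σ → Sup k q α σ → ∀ ρ : Fin (2 * k + 1) → ℕ, ∃ n₀ : ℕ, ∀ n : ℕ, n₀ ≤ n →
    (R k q (2 * k + 1) α ρ n : ℝ) ≤ C / (q : ℝ) ^ (2 * k) * (n : ℝ) ^ (1 + 1 / (k : ℝ))

/-- **LOB** (200 lines, uses `MT.S_CM`, S_MTL, S_GRW; adapt `V5helper51.MT.FIN4` (`Solves`) with the explicit dependence on
`q`). Proof. As `MT.S_FIN`: `S, T ⊆ box k P` have `≥ (P/(2q))^k` elements each, `X = M P`, the main term is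
`≥ (P/(2q))^(2k) / (12 k n^((k-1)/k))` by MTL (`q w ≤ n + C`); pairs `≤ Pair` (`box ⊆ range (C P)`; `cnt` is monotone up to the
blocks, or use `cnt` with `range` and `piFinset` subset), error `≤ C P^(k+1-σ/2)`. -/
def S_LOB : Prop := ∀ k : ℕ, 2 ≤ k → ∃ c : ℝ, 0 < c ∧ ∀ q : ℕ, 1 ≤ q → ∀ (α : Fin (k - 1) → ℝ) (σ : ℝ),
  0 < σ → σ < 1 → Pair k q α σ → Sup k q α σ → ∀ ρ : Fin (2 * k + 1) → ℕ, ∃ n₀ : ℕ, ∀ n : ℕ, n₀ ≤ n →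
    ((q : ℤ) ∣ (n : ℤ) - ∑ i, (ρ i : ℤ) ^ k) →
    c / (q : ℝ) ^ (2 * k) * (n : ℝ) ^ (1 + 1 / (k : ℝ)) ≤ (R k q (2 * k + 1) α ρ n : ℝ)

/-- the two-sided bound in dimension `d` for `α` and `q` -/
def Two (k d q : ℕ) (α : Fin (k - 1) → ℝ) (c C : ℝ) : Prop := ∀ ρ : Fin d → ℕ, ∃ n₀ : ℕ, ∀ n : ℕ, n₀ ≤ n →
  (R k q d α ρ n : ℝ) ≤ C / (q : ℝ) ^ (d - 1) * (n : ℝ) ^ ((d : ℝ) / k - 1) ∧
  (((q : ℤ) ∣ (n : ℤ) - ∑ i, (ρ i : ℤ) ^ k) →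
    c / (q : ℝ) ^ (d - 1) * (n : ℝ) ^ ((d : ℝ) / k - 1) ≤ (R k q d α ρ n : ℝ))

/-- **EXT** (250 lines, uses S_GRW). Proof. `R_(d+1)(n; ρ) = ∑_{x ≡ ρ_last} R_d(n - a(x); ρ')`. Upper bound: the `x` with
`n - a(x) ≥ n₀` are at most `4 n^(1/k) / q + 1` many and `n - a(x) ≤ n + B ≤ 2 n`; the others have `m₀ ≤ n - a(x) < n₀`, they are
boundedly many and `R_d` is bounded there; `n^((d+1)/k-1) → ∞` absorbs this for large `n`. Lower bound: the `x ≡ ρ_last`,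
`x₀ ≤ x ≤ (n/4)^(1/k)` are at least `(n/4)^(1/k) / (2 q)` many, `n - a(x) ≥ n/2`, and `a(x) ≡ x^k (mod q)`. -/
def S_EXT : Prop := ∀ k d : ℕ, 2 ≤ k → 2 * k + 1 ≤ d → ∀ c C : ℝ, 0 < c → 0 < C → ∃ c' C' : ℝ, 0 < c' ∧ 0 < C' ∧
  ∀ (q : ℕ) (α : Fin (k - 1) → ℝ), 1 ≤ q → Two k d q α c C → Two k (d + 1) q α c' C'

/-- the perturbed sphere -/
def sphere (k q d : ℕ) (α : Fin (k - 1) → ℝ) (u : ℕ) : Set (Fin d → ℤ) :=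
  {m | ∑ i, a k q α (m i).natAbs = u}

/-- **SPH** (150 lines, uses S_GRW). From classes to spheres. Proof. The sphere is finite; the fibres of `m ↦ |m|` have
between `1` and `2^d` elements, so `#sphere` is between `R` and `2^d R`, `R = ∑_ρ R_ρ` over `ρ ∈ [0, q)^d`; `R_ρ = 0` unless
`∑ ρ_i^k ≡ u (mod q)` (`a(x) ≡ x^k`), and the number of these `ρ` is the `Nat.card` below. -/
def S_SPH : Prop := ∀ k d : ℕ, 2 ≤ k → 1 ≤ d → ∀ c C : ℝ, 0 < c → 0 < C → ∀ (q : ℕ) (α : Fin (k - 1) → ℝ), 1 ≤ q →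
  Two k d q α c C → ∃ u₀ : ℕ, ∀ u : ℕ, u₀ ≤ u →
    c * ((Nat.card {x : Fin d → ZMod q // ∑ i, x i ^ k = (u : ZMod q)} : ℝ) / (q : ℝ) ^ (d - 1)) *
      (u : ℝ) ^ ((d : ℝ) / k - 1) ≤ (sphere k q d α u).ncard ∧
    ((sphere k q d α u).ncard : ℝ) ≤
      2 ^ d * C * ((Nat.card {x : Fin d → ZMod q // ∑ i, x i ^ k = (u : ZMod q)} : ℝ) / (q : ℝ) ^ (d - 1)) *
      (u : ℝ) ^ ((d : ℝ) / k - 1)

end Pool.Agent.V5helper50.SP
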